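import Mathlib

set_option autoImplicit false

/-!
# Equations `Δu + p(|x|) q(e^u) = 4πN δ` in the plane: definitions
-/

open MeasureTheory Laplacian Filter Topology Set

namespace Pool.Agent.H390.RS

/-- `f(t) = e^{2t} p(e^t)`. -/
noncomputable def fOf (p : ℝ → ℝ) (t : ℝ) : ℝ := Real.exp (2 * t) * p (Real.exp t)

/-- `g(u) = q(e^u)`. -/
noncomputable def gOf (q : ℝ → ℝ) (u : ℝ) : ℝ := q (Real.exp u)

/-- The set of the `M > 0` with `∫_0^∞ f(t) g(-Mt) dt` finite. -/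
def convSet (p q : ℝ → ℝ) : Set ℝ :=
  {M | 0 < M ∧ IntegrableOn (fun t => fOf p t * gOf q (-M * t)) (Ioi 0)}

/-- `G_0(u) = ∫_{-∞}^u g`. -/
noncomputable def gZero (q : ℝ → ℝ) (u : ℝ) : ℝ := ∫ v in Iic u, gOf q v

/-- The hypotheses (H1)–(H8) of the problem on `f(t) = e^{2t} p(e^t)` and `g(u) = q(e^u)`. -/
structure Hypotheses (p q : ℝ → ℝ) : Prop where
  h1f : ContDiff ℝ 1 (fOf p)
  h1g : ContDiff ℝ 1 (gOf q)
  h1int : IntegrableOn (fun t => |t * fOf p t|) (Iic 0)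
  h1bdd : ∃ C : ℝ, ∀ u, |gOf q u| + |deriv (gOf q) u| ≤ C
  h2pos : ∀ t, 0 < fOf p t
  h2lim : Tendsto (fOf p) atTop atTop
  h2zero : gOf q 0 = 0
  h2g : ∀ u, u < 0 → 0 < gOf q u
  h3 : ∀ t, 0 ≤ deriv (fOf p) t
  h4 : ∃ M ∈ convSet p q, ∀ u, u < -M → 0 < deriv (gOf q) u
  h5a : 0 < sInf (convSet p q) ∧
    ¬ IntegrableOn (fun t => fOf p t * gOf q (-sInf (convSet p q) * t)) (Ioi 0)
  h5b : ∀ c : ℝ, 0 < c → ∃ η : ℝ, 0 < η ∧ ∀ t, 0 < t → η ≤ fOf p (t - c) / fOf p t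
  h67 : (∀ u, IntegrableOn (gOf q) (Iic u)) ∧ ∃ f₁ g₁ : ℝ,
    Tendsto (fun t => deriv (fOf p) t / fOf p t) atTop (𝓝 f₁) ∧
    Tendsto (fun u => gZero q u / gOf q u) atBot (𝓝 g₁) ∧
    (∀ t, f₁ ≤ deriv (fOf p) t / fOf p t) ∧ ∀ u, u < 0 → g₁ ≤ gZero q u / gOf q u
  h8 : ∃ δ : ℝ, 0 < δ ∧ ∀ u ∈ Icc (-δ) 0, deriv (gOf q) u ≤ 0

/-- `u` is a solution of `Δu + p(|x|) q(e^u) = 4πN δ` in the sense of distributions on the plane
`ℂ = ℝ²`: it is locally integrable, smooth away from the origin, and the identity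
`∫ u Δφ + ∫ p(|x|) q(e^u) φ = 4πN φ(0)` holds for all test functions `φ`. -/
structure IsSolution (N : ℝ) (p q : ℝ → ℝ) (u : ℂ → ℝ) : Prop where
  locallyIntegrable : LocallyIntegrable u
  smooth : ContDiffOn ℝ ((⊤ : ℕ∞) : WithTop ℕ∞) u {0}ᶜ
  rhs : LocallyIntegrable (fun x : ℂ => p ‖x‖ * q (Real.exp (u x)))
  distributional : ∀ φ : ℂ → ℝ, ContDiff ℝ ((⊤ : ℕ∞) : WithTop ℕ∞) φ → HasCompactSupport φ →
    (∫ x, u x * Δ φ x) + (∫ x, p ‖x‖ * q (Real.exp (u x)) * φ x) = 4 * Real.pi * N * φ 0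

/-- `u` is radially symmetric about the origin: off the origin, `u(x)` depends only on `|x|`. -/
def IsRadial (u : ℂ → ℝ) : Prop := ∀ x y : ℂ, x ≠ 0 → ‖x‖ = ‖y‖ → u x = u y

end Pool.Agent.H390.RS
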