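import Pool.Agent.H390.RS.Defs

set_option autoImplicit false

open MeasureTheory Laplacian Filter Topology Set

namespace Pool.Agent.H390.RS

/-- Positive part. -/
noncomputable def pp (x : ℝ) : ℝ := max x 0

lemma pp_of_nonpos {x : ℝ} (h : x ≤ 0) : pp x = 0 := max_eq_right h
lemma pp_of_nonneg {x : ℝ} (h : 0 ≤ x) : pp x = x := max_eq_left h
lemma pp_cont : Continuous pp := continuous_id.max continuous_const

lemma hasDerivAt_pp_sq (x : ℝ) : HasDerivAt (fun x => pp x ^ 2) (2 * pp x) x := by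
  rcases lt_trichotomy x 0 with h | h | h
  · rw [pp_of_nonpos h.le, mul_zero]
    refine (hasDerivAt_const x (0 : ℝ)).congr_of_eventuallyEq ?_
    filter_upwards [gt_mem_nhds h] with y hy
    rw [pp_of_nonpos (le_of_lt hy)]; ring
  · subst h
    rw [pp_of_nonpos le_rfl, mul_zero, hasDerivAt_iff_isLittleO_nhds_zero]
    refine Asymptotics.IsBigO.trans_isLittleO (g := fun h : ℝ => h ^ 2) ?_ ?_
    · refine Asymptotics.IsBigO.of_bound 1 (Filter.Eventually.of_forall fun h => ?_)
      rw [pp_of_nonpos le_rfl]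
      simp only [zero_add, smul_zero, sub_zero, one_mul, ne_eq, OfNat.ofNat_ne_zero,
        not_false_eq_true, zero_pow]
      rw [Real.norm_of_nonneg (by positivity), Real.norm_of_nonneg (by positivity)]
      rcases le_total h 0 with h1 | h1
      · rw [pp_of_nonpos h1]; nlinarith
      · rw [pp_of_nonneg h1]
    · have := Asymptotics.isLittleO_pow_pow (𝕜 := ℝ) (m := 1) (n := 2) (by norm_num)
      simpa using this
  · rw [pp_of_nonneg h.le]
    have h1 : HasDerivAt (fun y : ℝ => y ^ 2) (2 * x) x := by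
      simpa using hasDerivAt_pow 2 x
    refine h1.congr_of_eventuallyEq ?_
    filter_upwards [lt_mem_nhds h] with y hy
    rw [pp_of_nonneg (le_of_lt hy)]

/-- The nonlinearity `q`: it is `q(s) = s` for `s ≤ 1/2`, vanishes at `1` and is constant for
`s ≥ 2`. -/
noncomputable def qq (s : ℝ) : ℝ :=
  s - 4 * (max (s - 1 / 2) 0) ^ 2 + 11 / 2 * (max (s - 1) 0) ^ 2 - 3 / 2 * (max (s - 2) 0) ^ 2

noncomputable def qq' (s : ℝ) : ℝ := 1 - 8 * pp (s - 1 / 2) + 11 * pp (s - 1) - 3 * pp (s - 2)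

lemma qq_eq (s : ℝ) : qq s =
    s - 4 * (pp (s - 1 / 2)) ^ 2 + 11 / 2 * (pp (s - 1)) ^ 2 - 3 / 2 * (pp (s - 2)) ^ 2 := rfl

lemma qq'_cont : Continuous qq' := by
  have h : ∀ a : ℝ, Continuous fun s : ℝ => pp (s - a) := fun a =>
    pp_cont.comp (continuous_id.sub continuous_const)
  have h1 := h (1 / 2)
  have h2 := h 1
  have h3 := h 2
  unfold qq'
  fun_prop

lemma hasDerivAt_qq (s : ℝ) : HasDerivAt qq (qq' s) s := by
  have h : ∀ a : ℝ, HasDerivAt (fun s : ℝ => pp (s - a) ^ 2) (2 * pp (s - a)) s := fun a => by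
    have h0 : HasDerivAt (fun s : ℝ => s - a) 1 s := (hasDerivAt_id s).sub_const a
    have h1 := HasDerivAt.comp (h₂ := fun x : ℝ => pp x ^ 2) s (hasDerivAt_pp_sq (s - a)) h0
    rwa [mul_one] at h1
  have h4 := (((hasDerivAt_id s).sub ((h (1 / 2)).const_mul 4)).add ((h 1).const_mul (11 / 2))).sub
    ((h 2).const_mul (3 / 2))
  refine h4.congr_deriv ?_
  unfold qq'
  ring

lemma qq_small {s : ℝ} (h : s ≤ 1 / 2) : qq s = s := by
  rw [qq_eq, pp_of_nonpos (by linarith), pp_of_nonpos (by linarith), pp_of_nonpos (by linarith)]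
  ring

lemma qq'_small {s : ℝ} (h : s ≤ 1 / 2) : qq' s = 1 := by
  unfold qq'
  rw [pp_of_nonpos (by linarith), pp_of_nonpos (by linarith), pp_of_nonpos (by linarith)]
  ring

lemma qq_mid {s : ℝ} (h : 1 / 2 ≤ s) (h' : s ≤ 1) : qq s = s - 4 * (s - 1 / 2) ^ 2 := by
  rw [qq_eq, pp_of_nonneg (by linarith), pp_of_nonpos (by linarith), pp_of_nonpos (by linarith)]
  ring

lemma qq'_mid {s : ℝ} (h : 1 / 2 ≤ s) (h' : s ≤ 1) : qq' s = 1 - 8 * (s - 1 / 2) := by
  unfold qq'
  rw [pp_of_nonneg (by linarith), pp_of_nonpos (by linarith), pp_of_nonpos (by linarith)]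
  ring

lemma qq_large {s : ℝ} (h : 2 ≤ s) : qq s = -3 / 2 := by
  rw [qq_eq, pp_of_nonneg (by linarith), pp_of_nonneg (by linarith), pp_of_nonneg (by linarith)]
  ring

lemma qq'_large {s : ℝ} (h : 2 ≤ s) : qq' s = 0 := by
  unfold qq'
  rw [pp_of_nonneg (by linarith), pp_of_nonneg (by linarith), pp_of_nonneg (by linarith)]
  ring

lemma qq_pos {s : ℝ} (h : 0 < s) (h' : s < 1) : 0 < qq s := by
  rcases le_total s (1 / 2) with h1 | h1
  · rw [qq_small h1]; exact h
  · rw [qq_mid h1 h'.le]; nlinarith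

lemma qq_le {s : ℝ} (h' : s ≤ 1) : qq s ≤ s := by
  rcases le_total s (1 / 2) with h1 | h1
  · rw [qq_small h1]
  · rw [qq_mid h1 h']; nlinarith [sq_nonneg (s - 1 / 2)]

/-- `s q'(s) ≤ q(s)` on `(0, 1)`. -/
lemma qq_conc {s : ℝ} (h' : s ≤ 1) : s * qq' s ≤ qq s := by
  rcases le_total s (1 / 2) with h1 | h1
  · rw [qq_small h1, qq'_small h1]; linarith
  · rw [qq_mid h1 h', qq'_mid h1 h']; nlinarith

lemma g_eq : gOf qq = fun u => qq (Real.exp u) := rfl

lemma g_deriv (u : ℝ) : HasDerivAt (gOf qq) (qq' (Real.exp u) * Real.exp u) u :=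
  (hasDerivAt_qq _).comp u (Real.hasDerivAt_exp u)

lemma g_deriv' : deriv (gOf qq) = fun u => qq' (Real.exp u) * Real.exp u :=
  funext fun u => (g_deriv u).deriv

lemma g'_cont : Continuous fun u => qq' (Real.exp u) * Real.exp u :=
  (qq'_cont.comp Real.continuous_exp).mul Real.continuous_exp

lemma g_c1 : ContDiff ℝ 1 (gOf qq) := by
  rw [contDiff_one_iff_deriv]
  refine ⟨fun u => (g_deriv u).differentiableAt, ?_⟩
  rw [g_deriv']
  exact g'_cont

lemma g_cont : Continuous (gOf qq) := g_c1.continuous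

lemma pp_nonneg (x : ℝ) : 0 ≤ pp x := le_max_right _ _

lemma pp_le {x a : ℝ} (h : x ≤ a) (ha : 0 ≤ a) : pp x ≤ a := max_le h ha

lemma g_bdd : ∃ C : ℝ, ∀ u, |gOf qq u| + |deriv (gOf qq) u| ≤ C := by
  refine ⟨100, fun u => ?_⟩
  rw [g_deriv']
  simp only [g_eq]
  set s := Real.exp u with hs
  have hs0 : 0 < s := Real.exp_pos u
  rcases le_total s 2 with h | h
  · have a1 := pp_nonneg (s - 1 / 2)
    have a2 := pp_nonneg (s - 1)
    have a3 := pp_nonneg (s - 2)
    have b1 : pp (s - 1 / 2) ≤ 3 / 2 := pp_le (by linarith) (by norm_num)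
    have b2 : pp (s - 1) ≤ 1 := pp_le (by linarith) (by norm_num)
    have b3 : pp (s - 2) = 0 := pp_of_nonpos (by linarith)
    have c1 : |qq s| ≤ 20 := by
      rw [qq_eq, b3, abs_le]
      constructor <;> nlinarith
    have c2 : |qq' s| ≤ 24 := by
      unfold qq'
      rw [b3, abs_le]
      constructor <;> linarith
    have c3 : |qq' s * s| ≤ 48 := by
      rw [abs_mul, abs_of_pos hs0]
      nlinarith [abs_nonneg (qq' s)]
    linarith
  · rw [qq_large h, qq'_large h]
    norm_num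

lemma g_zero : gOf qq 0 = 0 := by
  simp only [g_eq, Real.exp_zero]
  rw [qq_mid (by norm_num) le_rfl]; norm_num

lemma exp_lt_one' {u : ℝ} (h : u < 0) : Real.exp u < 1 := by
  rw [← Real.exp_zero]; exact Real.exp_lt_exp.mpr h

lemma exp_le_one' {u : ℝ} (h : u ≤ 0) : Real.exp u ≤ 1 := by
  rw [← Real.exp_zero]; exact Real.exp_le_exp.mpr h

lemma g_pos (u : ℝ) (h : u < 0) : 0 < gOf qq u := qq_pos (Real.exp_pos u) (exp_lt_one' h)

lemma g_nonneg (u : ℝ) (h : u ≤ 0) : 0 ≤ gOf qq u := by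
  rcases h.lt_or_eq with h1 | h1
  · exact (g_pos u h1).le
  · rw [h1, g_zero]

lemma g_small {u : ℝ} (h : Real.exp u ≤ 1 / 2) : gOf qq u = Real.exp u := qq_small h

/-- `u ≤ -1` implies `e^u ≤ 1/2`. -/
lemma exp_half {u : ℝ} (h : u ≤ -1) : Real.exp u ≤ 1 / 2 := by
  have h1 : Real.exp u ≤ Real.exp (-1) := Real.exp_le_exp.mpr h
  have h2 : Real.exp (-1) = (Real.exp 1)⁻¹ := Real.exp_neg 1
  have h3 : (2 : ℝ) < Real.exp 1 := by
    have := Real.exp_one_gt_d9; linarith
  have h4 : (Real.exp 1)⁻¹ ≤ 2⁻¹ := inv_anti₀ (by norm_num) h3.le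
  rw [h2] at h1
  linarith

lemma g_int (u : ℝ) : IntegrableOn (gOf qq) (Iic u) := by
  have h1 : IntegrableOn (gOf qq) (Iic (-1)) := by
    refine (integrableOn_exp_Iic (-1)).congr_fun ?_ measurableSet_Iic
    intro v hv
    exact (g_small (exp_half hv)).symm
  rcases le_total u (-1) with h | h
  · exact h1.mono_set (Iic_subset_Iic.mpr h)
  · have h2 : Iic u = Iic (-1) ∪ Icc (-1) u := (Iic_union_Icc_eq_Iic h).symm
    rw [h2]
    exact h1.union (g_cont.continuousOn.integrableOn_Icc)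

lemma g'_int (u : ℝ) : IntegrableOn (fun u => qq' (Real.exp u) * Real.exp u) (Iic u) := by
  have h1 : IntegrableOn (fun u => qq' (Real.exp u) * Real.exp u) (Iic (-1)) := by
    refine (integrableOn_exp_Iic (-1)).congr_fun ?_ measurableSet_Iic
    intro v hv
    simp only
    rw [qq'_small (exp_half hv), one_mul]
  rcases le_total u (-1) with h | h
  · exact h1.mono_set (Iic_subset_Iic.mpr h)
  · have h2 : Iic u = Iic (-1) ∪ Icc (-1) u := (Iic_union_Icc_eq_Iic h).symm
    rw [h2]
    exact h1.union (g'_cont.continuousOn.integrableOn_Icc)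

lemma gZero_small {u : ℝ} (h : u ≤ -1) : gZero qq u = Real.exp u := by
  unfold gZero
  rw [← integral_exp_Iic u]
  refine setIntegral_congr_fun measurableSet_Iic ?_
  intro v hv
  exact g_small (exp_half (le_trans hv h))

lemma gZero_ge {u : ℝ} (h : u < 0) : gOf qq u ≤ gZero qq u := by
  have h1 : ∫ v in Iic u, qq' (Real.exp v) * Real.exp v = gOf qq u - 0 := by
    refine integral_Iic_of_hasDerivAt_of_tendsto' (fun v _ => g_deriv v) (g'_int u) ?_
    have : Tendsto Real.exp atBot (𝓝 0) := Real.tendsto_exp_atBot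
    refine this.congr' ?_
    filter_upwards [Iic_mem_atBot (-1 : ℝ)] with v hv
    exact (g_small (exp_half hv)).symm
  rw [sub_zero] at h1
  rw [← h1]
  unfold gZero
  refine setIntegral_mono_on (g'_int u) (g_int u) measurableSet_Iic ?_
  intro v hv
  have hv' : v ≤ u := hv
  have := qq_conc (s := Real.exp v) (exp_le_one' (by linarith))
  simp only [g_eq]
  linarith

/-- `p(r) = r^{2k}`. -/
noncomputable def pw (k : ℝ) (r : ℝ) : ℝ := r ^ (2 * k)

lemma f_eq (k : ℝ) : fOf (pw k) = fun t => Real.exp ((2 * k + 2) * t) := by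
  funext t
  unfold fOf pw
  rw [← Real.exp_mul, ← Real.exp_add]
  congr 1
  ring

lemma f_deriv (k t : ℝ) : HasDerivAt (fOf (pw k)) ((2 * k + 2) * Real.exp ((2 * k + 2) * t)) t := by
  rw [f_eq]
  have h1 : HasDerivAt (fun t : ℝ => (2 * k + 2) * t) (2 * k + 2) t := by
    simpa using (hasDerivAt_id t).const_mul (2 * k + 2)
  exact h1.exp.congr_deriv (mul_comm _ _)

lemma f_deriv' (k : ℝ) : deriv (fOf (pw k)) = fun t => (2 * k + 2) * Real.exp ((2 * k + 2) * t) :=
  funext fun t => (f_deriv k t).deriv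

lemma fg_nonneg (k M t : ℝ) (hM : 0 < M) (ht : 0 < t) :
    0 ≤ fOf (pw k) t * gOf qq (-M * t) := by
  rw [f_eq]
  exact mul_nonneg (Real.exp_pos _).le (g_nonneg _ (by nlinarith))

lemma fg_tail (k M t : ℝ) (hM : 0 < M) (ht : 1 / M ≤ t) :
    fOf (pw k) t * gOf qq (-M * t) = Real.exp ((2 * k + 2 - M) * t) := by
  have h1 : -M * t ≤ -1 := by
    rw [div_le_iff₀ hM] at ht; linarith
  rw [f_eq, g_small (exp_half h1), ← Real.exp_add]
  congr 1
  ring

lemma fg_cont (k M : ℝ) : Continuous fun t => fOf (pw k) t * gOf qq (-M * t) := by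
  have h1 := g_cont
  rw [f_eq]
  fun_prop

/-- The integral `∫_0^∞ f(t) g(-Mt) dt` converges exactly for `M > 2k + 2`. -/
lemma conv_iff (k : ℝ) (M : ℝ) (hM : 0 < M) :
    IntegrableOn (fun t => fOf (pw k) t * gOf qq (-M * t)) (Ioi 0) ↔ 2 * k + 2 < M := by
  have hM1 : 0 < 1 / M := by positivity
  constructor
  · intro h
    by_contra hlt
    push Not at hlt
    have h1 : IntegrableOn (fun _ : ℝ => (1 : ℝ)) (Ioi (1 / M)) := by
      refine Integrable.mono' (h.mono_set (Ioi_subset_Ioi hM1.le)) ?_ ?_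
      · exact aestronglyMeasurable_const
      · refine (ae_restrict_iff' measurableSet_Ioi).mpr (Filter.Eventually.of_forall fun t ht => ?_)
        have ht' : 1 / M < t := ht
        rw [fg_tail k M t hM ht'.le, norm_one]
        exact Real.one_le_exp (mul_nonneg (by linarith) (by linarith))
    rw [integrableOn_const_iff] at h1
    simp at h1
  · intro h
    have h1 : Ioi (0 : ℝ) = Ioc 0 (1 / M) ∪ Ioi (1 / M) := (Ioc_union_Ioi_eq_Ioi hM1.le).symm
    rw [h1]
    refine IntegrableOn.union ?_ ?_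
    · exact ((fg_cont k M).continuousOn.integrableOn_Icc).mono_set Ioc_subset_Icc_self
    · have h2 := exp_neg_integrableOn_Ioi (1 / M) (b := M - (2 * k + 2)) (by linarith)
      refine h2.congr_fun ?_ measurableSet_Ioi
      intro t ht
      have ht' : 1 / M < t := ht
      simp only
      rw [fg_tail k M t hM ht'.le]
      congr 1
      ring

lemma convSet_eq (k : ℝ) (hk : -1 < k) : convSet (pw k) qq = Ioi (2 * k + 2) := by
  ext M
  simp only [convSet, mem_ofPred_eq, mem_Ioi]
  constructor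
  · rintro ⟨h1, h2⟩
    exact (conv_iff k M h1).mp h2
  · intro h
    have h1 : 0 < M := by linarith
    exact ⟨h1, (conv_iff k M h1).mpr h⟩

lemma f_int (k : ℝ) (hk : -1 < k) :
    IntegrableOn (fun t : ℝ => |t * fOf (pw k) t|) (Iic 0) := by
  have h0 : 0 < k + 1 := by linarith
  have hE : IntegrableOn (fun t : ℝ => Real.exp ((k + 1) * t)) (Iic 0) :=
    integrableOn_exp_mul_Iic h0 0
  have hb : ∀ t : ℝ, t ≤ 0 →
      |t * Real.exp ((2 * k + 2) * t)| ≤ (1 / (k + 1)) * Real.exp ((k + 1) * t) := by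
    intro t ht
    rw [abs_mul, abs_of_pos (Real.exp_pos _), abs_of_nonpos ht]
    have h3 : -((k + 1) * t) ≤ Real.exp (-((k + 1) * t)) := by
      have := Real.add_one_le_exp (-((k + 1) * t)); linarith
    have h4 : Real.exp ((2 * k + 2) * t) =
        Real.exp ((k + 1) * t) * Real.exp ((k + 1) * t) := by
      rw [← Real.exp_add]; congr 1; ring
    have h5 : Real.exp (-((k + 1) * t)) * Real.exp ((k + 1) * t) = 1 := by
      rw [← Real.exp_add]; simp
    have h6 : 0 < Real.exp ((k + 1) * t) := Real.exp_pos _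
    have h7 : -((k + 1) * t) * Real.exp ((k + 1) * t) ≤ 1 :=
      (mul_le_mul_of_nonneg_right h3 h6.le).trans_eq h5
    have h8 : -t * Real.exp ((k + 1) * t) ≤ 1 / (k + 1) := by
      rw [le_div_iff₀ h0]; linarith
    rw [h4]
    calc -t * (Real.exp ((k + 1) * t) * Real.exp ((k + 1) * t)) =
        (-t * Real.exp ((k + 1) * t)) * Real.exp ((k + 1) * t) := by ring
      _ ≤ _ := mul_le_mul_of_nonneg_right h8 h6.le
  rw [f_eq]
  refine Integrable.mono' (hE.const_mul (1 / (k + 1))) ?_ ?_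
  · exact Continuous.aestronglyMeasurable (by fun_prop)
  · refine (ae_restrict_iff' measurableSet_Iic).mpr (Filter.Eventually.of_forall fun t ht => ?_)
    rw [Real.norm_of_nonneg (abs_nonneg _)]
    exact hb t ht

theorem hypotheses (k : ℝ) (hk : -1 < k) : Hypotheses (pw k) qq where
  h1f := by rw [f_eq]; fun_prop
  h1g := g_c1
  h1int := f_int k hk
  h1bdd := g_bdd
  h2pos := fun t => by rw [f_eq]; exact Real.exp_pos _
  h2lim := by
    rw [f_eq]
    exact Real.tendsto_exp_atTop.comp (tendsto_id.const_mul_atTop (by linarith))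
  h2zero := g_zero
  h2g := g_pos
  h3 := fun t => by
    rw [f_deriv']
    exact mul_nonneg (by linarith) (Real.exp_pos _).le
  h4 := by
    rw [convSet_eq k hk]
    refine ⟨2 * k + 3, ?_, ?_⟩
    · show 2 * k + 2 < 2 * k + 3
      linarith
    · intro u hu
      rw [g_deriv']
      simp only
      rw [qq'_small (exp_half (by linarith)), one_mul]
      exact Real.exp_pos _
  h5a := by
    rw [convSet_eq k hk, csInf_Ioi]
    refine ⟨by linarith, ?_⟩
    rw [conv_iff k _ (by linarith)]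
    exact lt_irrefl _
  h5b := by
    intro c hc
    refine ⟨Real.exp (-((2 * k + 2) * c)), Real.exp_pos _, fun t _ => ?_⟩
    rw [f_eq]
    simp only
    rw [← Real.exp_sub]
    apply le_of_eq
    congr 1
    ring
  h67 := by
    refine ⟨g_int, 2 * k + 2, 1, ?_, ?_, ?_, ?_⟩
    · have : (fun t => deriv (fOf (pw k)) t / fOf (pw k) t) = fun _ => 2 * k + 2 := by
        funext t
        rw [f_deriv', f_eq]
        simp only
        rw [mul_div_assoc, div_self (Real.exp_pos _).ne', mul_one]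
      rw [this]
      exact tendsto_const_nhds
    · refine Tendsto.congr' ?_ tendsto_const_nhds
      filter_upwards [Iic_mem_atBot (-1 : ℝ)] with u hu
      rw [gZero_small hu, g_small (exp_half hu), div_self (Real.exp_pos _).ne']
    · intro t
      rw [f_deriv', f_eq]
      simp only
      rw [mul_div_assoc, div_self (Real.exp_pos _).ne', mul_one]
    · intro u hu
      rw [le_div_iff₀ (g_pos u hu), one_mul]
      exact gZero_ge hu
  h8 := by
    refine ⟨1 / 4, by norm_num, fun u hu => ?_⟩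
    rw [g_deriv']
    simp only
    have h1 : 3 / 4 ≤ Real.exp u := by
      have := Real.add_one_le_exp u
      linarith [hu.1]
    have h2 : Real.exp u ≤ 1 := exp_le_one' hu.2
    rw [qq'_mid (by linarith) h2]
    nlinarith [Real.exp_pos u]

end Pool.Agent.H390.RS
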