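import Pool.Agent.R235.BD.Lap

set_option autoImplicit false

open MeasureTheory Laplacian InnerProductSpace Filter Topology Set

namespace Pool.Agent.H390.RS

open Pool.Agent.H314.CS Pool.Agent.R235.BD

/-- The Laplacian of a composition with a holomorphic function. -/
lemma laplacian_comp_holo {g : ℂ → ℝ} (hg : ContDiff ℝ 2 g) {F F' F'' : ℂ → ℂ}
    (hF : ∀ z, HasDerivAt F (F' z) z) (hF' : ∀ z, HasDerivAt F' (F'' z) z) (z : ℂ) :
    Δ (fun y => g (F y)) z = ‖F' z‖ ^ 2 * Δ g (F z) := by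
  have hFr : ∀ y, HasFDerivAt F (ContinuousLinearMap.mul ℝ ℂ (F' y)) y := fun y => by
    have h := (hF y).hasFDerivAt.restrictScalars ℝ
    refine h.congr_fderiv ?_
    ext; simp [mul_comm]
  have hF'r : ∀ y, HasFDerivAt F' (ContinuousLinearMap.mul ℝ ℂ (F'' y)) y := fun y => by
    have h := (hF' y).hasFDerivAt.restrictScalars ℝ
    refine h.congr_fderiv ?_
    ext; simp [mul_comm]
  have hg1 : ∀ y, HasFDerivAt g (fderiv ℝ g y) y := fun y =>
    (hg.differentiable (by norm_num) y).hasFDerivAt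
  have hg2 : ∀ y, HasFDerivAt (fderiv ℝ g) (fderiv ℝ (fderiv ℝ g) y) y := fun y =>
    ((hg.fderiv_right (m := 1) (by norm_num)).differentiable (by norm_num) y).hasFDerivAt
  have h1 : ∀ y, HasFDerivAt (fun y => g (F y))
      ((fderiv ℝ g (F y)).comp (ContinuousLinearMap.mul ℝ ℂ (F' y))) y := fun y =>
    (hg1 (F y)).comp y (hFr y)
  have h2 : HasFDerivAt (fun y => fderiv ℝ g (F y))
      ((fderiv ℝ (fderiv ℝ g) (F z)).comp (ContinuousLinearMap.mul ℝ ℂ (F' z))) z :=
    (hg2 (F z)).comp z (hFr z)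
  have h3 : HasFDerivAt (fun y => ContinuousLinearMap.mul ℝ ℂ (F' y))
      ((ContinuousLinearMap.mul ℝ ℂ).comp (ContinuousLinearMap.mul ℝ ℂ (F'' z))) z :=
    ((ContinuousLinearMap.mul ℝ ℂ).hasFDerivAt).comp z (hF'r z)
  have h4 := h2.clm_comp h3
  rw [LL.laplacian_eq_of_hasFDerivAt Complex.orthonormalBasisOneI
    (Filter.Eventually.of_forall h1) h4]
  rw [LL.laplacian_eq_of_hasFDerivAt Complex.orthonormalBasisOneI
    (Filter.Eventually.of_forall hg1) (hg2 (F z))]
  set B := fderiv ℝ (fderiv ℝ g) (F z) with hB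
  set L := fderiv ℝ g (F z) with hL
  have e1 : ∀ a : ℂ, a = a.re • (1 : ℂ) + a.im • Complex.I := fun a => by
    apply Complex.ext <;> simp
  simp only [Fin.sum_univ_two, Complex.coe_orthonormalBasisOneI, Matrix.cons_val_zero,
    Matrix.cons_val_one, add_apply, ContinuousLinearMap.comp_apply,
    ContinuousLinearMap.compL_apply, ContinuousLinearMap.flip_apply,
    ContinuousLinearMap.mul_apply', mul_one]
  have e2 : F'' z * Complex.I * Complex.I = -F'' z := by
    rw [mul_assoc, Complex.I_mul_I]; ring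
  rw [e2, map_neg]
  set a := F' z with ha
  have e3 : ∀ x y : ℝ, B (x • (1 : ℂ) + y • Complex.I) (x • (1 : ℂ) + y • Complex.I) =
      x ^ 2 * B 1 1 + x * y * (B 1 Complex.I + B Complex.I 1) + y ^ 2 * B Complex.I Complex.I := by
    intro x y
    simp only [map_add, map_smul, add_apply, smul_apply, smul_eq_mul]
    ring
  have e4 : a * Complex.I = (-a.im) • (1 : ℂ) + a.re • Complex.I := by
    apply Complex.ext <;> simp
  have e5 : B a a = a.re ^ 2 * B 1 1 + a.re * a.im * (B 1 Complex.I + B Complex.I 1) +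
      a.im ^ 2 * B Complex.I Complex.I := by
    conv_lhs => rw [e1 a]
    exact e3 _ _
  rw [e5, e4, e3, ← Complex.normSq_eq_norm_sq, Complex.normSq_apply]
  ring

/-- The function `log (1 + lam |z^m - 1|^2)`. -/
noncomputable def W (lam : ℝ) (m : ℕ) (z : ℂ) : ℝ := Real.log (1 + lam * ‖z ^ m - 1‖ ^ 2)

lemma contDiff_V {lam : ℝ} (hl : 0 < lam) {n : WithTop ℕ∞} :
    ContDiff ℝ n (fun w : ℂ => Real.log (1 + lam * ‖w‖ ^ 2)) := by
  refine ContDiff.log ?_ ?_
  · exact contDiff_const.add (contDiff_const.mul (contDiff_norm_sq ℝ))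
  · intro x; positivity

lemma contDiff_W {lam : ℝ} (hl : 0 < lam) (m : ℕ) {n : WithTop ℕ∞} : ContDiff ℝ n (W lam m) := by
  have h : ContDiff ℝ n (fun z : ℂ => z ^ m - 1) := (contDiff_id.pow m).sub contDiff_const
  exact (contDiff_V hl).comp h

lemma laplacian_V {lam : ℝ} (hl : 0 < lam) (z : ℂ) :
    Δ (fun w : ℂ => Real.log (1 + lam * ‖w‖ ^ 2)) z = 4 * lam / (1 + lam * ‖z‖ ^ 2) ^ 2 := by
  have h := LL.laplacian_comp_normSq (E := ℂ) (x := z) (U := fun s => Real.log (1 + lam * s))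
    (U' := fun s => lam * (1 + lam * s)⁻¹)
    (U'' := fun s => -(lam ^ 2) * ((1 + lam * s)⁻¹) ^ 2) ?_ ?_
  · rw [h, Complex.finrank_real_complex]
    have h0 : (1 + lam * ‖z‖ ^ 2) ≠ 0 := by positivity
    field_simp
    push_cast
    ring
  · have : ∀ᶠ s in 𝓝 (‖z‖ ^ 2), 0 < 1 + lam * s := by
      have h1 : Continuous fun s : ℝ => 1 + lam * s := by fun_prop
      have h2 : 0 < 1 + lam * ‖z‖ ^ 2 := by positivity
      exact h1.continuousAt.eventually (lt_mem_nhds h2)
    filter_upwards [this] with s hs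
    have h3 : HasDerivAt (fun s : ℝ => 1 + lam * s) lam s := by
      simpa using ((hasDerivAt_id s).const_mul lam).const_add 1
    have := h3.log hs.ne'
    rwa [div_eq_mul_inv] at this
  · have h2 : 1 + lam * ‖z‖ ^ 2 ≠ 0 := by positivity
    have h3 : HasDerivAt (fun s : ℝ => 1 + lam * s) lam (‖z‖ ^ 2) := by
      simpa using ((hasDerivAt_id (‖z‖ ^ 2)).const_mul lam).const_add 1
    have := (h3.inv h2).const_mul lam
    refine this.congr_deriv ?_
    field_simp

lemma laplacian_W {lam : ℝ} (hl : 0 < lam) (m : ℕ) (z : ℂ) :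
    Δ (W lam m) z =
      4 * lam * (m : ℝ) ^ 2 * ‖z‖ ^ (2 * (m - 1)) / (1 + lam * ‖z ^ m - 1‖ ^ 2) ^ 2 := by
  have hF : ∀ z : ℂ, HasDerivAt (fun z : ℂ => z ^ m - 1) (m * z ^ (m - 1)) z := fun z => by
    simpa using (hasDerivAt_pow m z).sub_const 1
  have hF' : ∀ z : ℂ, HasDerivAt (fun z : ℂ => (m : ℂ) * z ^ (m - 1))
      (m * ((m - 1 : ℕ) * z ^ (m - 1 - 1))) z := fun z => by
    simpa using (hasDerivAt_pow (m - 1) z).const_mul (m : ℂ)
  have h := laplacian_comp_holo (contDiff_V hl) hF hF' z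
  have e : W lam m = fun y => (fun w : ℂ => Real.log (1 + lam * ‖w‖ ^ 2)) (y ^ m - 1) := rfl
  rw [e, h, laplacian_V hl, norm_mul, norm_pow, Complex.norm_natCast, pow_mul']
  ring

end Pool.Agent.H390.RS
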